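import Pool.Agent.Helper17.RZ.St1

/-!
# The lattice argument (module A6 of project RZ)
-/

set_option autoImplicit false

open Polynomial Module

namespace Pool.Agent.Helper68.RZ

open Pool.Agent.Helper17.RZ

universe u

variable {F : Type u} [Field F]

/-- the polynomial of degree less than `a` with given coefficients -/
noncomputable def emb (F : Type u) [Field F] (a : ℕ) : (Fin a → F) →ₗ[F] F[X] :=
  (degreeLT F a).subtype ∘ₗ (degreeLTEquiv F a).symm.toLinearMap

theorem emb_inj (a : ℕ) : Function.Injective (emb F a) := by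
  intro x y h
  have h1 : ((degreeLTEquiv F a).symm x : F[X]) = ((degreeLTEquiv F a).symm y : F[X]) := h
  exact (degreeLTEquiv F a).symm.injective (Subtype.ext h1)

theorem emb_mem (a : ℕ) (x : Fin a → F) : emb F a x ∈ degreeLT F a :=
  ((degreeLTEquiv F a).symm x).2

/-- the three congruences -/
def Lat (A B C lA lB lC : F[X]) (w : Fin 3 → F[X]) : Prop :=
  C ∣ w 0 - lC * w 1 ∧ A ∣ w 1 - lA * w 2 ∧ B ∣ w 2 - lB * w 0

/-- the bounds for the degrees -/
def Small (a b c : ℕ) (w : Fin 3 → F[X]) : Prop :=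
  w 0 ∈ degreeLT F a ∧ w 1 ∈ degreeLT F b ∧ w 2 ∈ degreeLT F c

/-- the bilinear form -/
noncomputable def form (A B C : F[X]) (w w' : Fin 3 → F[X]) : F[X] :=
  A * w 0 * w' 0 + B * w 1 * w' 1 + C * w 2 * w' 2

theorem form_symm (A B C : F[X]) (w w' : Fin 3 → F[X]) : form A B C w w' = form A B C w' w := by
  unfold form
  ring

theorem exists_triple {A B C : F[X]} (lA lB lC : F[X]) (hA : A ≠ 0) (hB : B ≠ 0) (hC : C ≠ 0)
    (a b c k : ℕ) (h : A.natDegree + B.natDegree + C.natDegree + k < a + b + c)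
    (ψ : (Fin 3 → F[X]) →ₗ[F] (Fin k → F)) :
    ∃ w : Fin 3 → F[X], w ≠ 0 ∧ Small a b c w ∧ Lat A B C lA lB lC w ∧ ψ w = 0 := by
  have := (AdjoinRoot.powerBasis hA).finite
  have := (AdjoinRoot.powerBasis hB).finite
  have := (AdjoinRoot.powerBasis hC).finite
  let p0 : (Fin 3 → F[X]) →ₗ[F] F[X] := LinearMap.proj 0
  let p1 : (Fin 3 → F[X]) →ₗ[F] F[X] := LinearMap.proj 1
  let p2 : (Fin 3 → F[X]) →ₗ[F] F[X] := LinearMap.proj 2
  let e0 : ((Fin a → F) × (Fin b → F) × (Fin c → F)) →ₗ[F] F[X] := emb F a ∘ₗ LinearMap.fst F _ _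
  let e1 : ((Fin a → F) × (Fin b → F) × (Fin c → F)) →ₗ[F] F[X] :=
    emb F b ∘ₗ LinearMap.fst F _ _ ∘ₗ LinearMap.snd F _ _
  let e2 : ((Fin a → F) × (Fin b → F) × (Fin c → F)) →ₗ[F] F[X] :=
    emb F c ∘ₗ LinearMap.snd F _ _ ∘ₗ LinearMap.snd F _ _
  let io : ((Fin a → F) × (Fin b → F) × (Fin c → F)) →ₗ[F] (Fin 3 → F[X]) :=
    LinearMap.pi ![e0, e1, e2]
  let g0 : (Fin 3 → F[X]) →ₗ[F] AdjoinRoot C :=
    (AdjoinRoot.mkₐ C).toLinearMap ∘ₗ (p0 - LinearMap.mulLeft F lC ∘ₗ p1)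
  let g1 : (Fin 3 → F[X]) →ₗ[F] AdjoinRoot A :=
    (AdjoinRoot.mkₐ A).toLinearMap ∘ₗ (p1 - LinearMap.mulLeft F lA ∘ₗ p2)
  let g2 : (Fin 3 → F[X]) →ₗ[F] AdjoinRoot B :=
    (AdjoinRoot.mkₐ B).toLinearMap ∘ₗ (p2 - LinearMap.mulLeft F lB ∘ₗ p0)
  let Φ : ((Fin a → F) × (Fin b → F) × (Fin c → F)) →ₗ[F]
      AdjoinRoot C × AdjoinRoot A × AdjoinRoot B × (Fin k → F) :=
    (g0 ∘ₗ io).prod ((g1 ∘ₗ io).prod ((g2 ∘ₗ io).prod (ψ ∘ₗ io)))
  have hd : finrank F (AdjoinRoot C × AdjoinRoot A × AdjoinRoot B × (Fin k → F)) <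
      finrank F ((Fin a → F) × (Fin b → F) × (Fin c → F)) := by
    rw [finrank_prod, finrank_prod, finrank_prod, finrank_prod, finrank_prod,
      finrank_fin_fun, finrank_fin_fun, finrank_fin_fun, finrank_fin_fun,
      (AdjoinRoot.powerBasis hA).finrank, (AdjoinRoot.powerBasis hB).finrank,
      (AdjoinRoot.powerBasis hC).finrank, AdjoinRoot.powerBasis_dim, AdjoinRoot.powerBasis_dim,
      AdjoinRoot.powerBasis_dim]
    omega
  obtain ⟨v, hv, hv0⟩ := Submodule.exists_mem_ne_zero_of_ne_bot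
    (LinearMap.ker_ne_bot_of_finrank_lt (f := Φ) hd)
  have hΦ : Φ v = 0 := hv
  have hΦ0 : g0 (io v) = 0 := congrArg Prod.fst hΦ
  have hΦ1 : g1 (io v) = 0 := congrArg (fun t => t.2.1) hΦ
  have hΦ2 : g2 (io v) = 0 := congrArg (fun t => t.2.2.1) hΦ
  have hΦ3 : ψ (io v) = 0 := congrArg (fun t => t.2.2.2) hΦ
  have i0 : io v 0 = emb F a v.1 := rfl
  have i1 : io v 1 = emb F b v.2.1 := rfl
  have i2 : io v 2 = emb F c v.2.2 := rfl
  refine ⟨io v, ?_, ⟨?_, ?_, ?_⟩, ⟨?_, ?_, ?_⟩, hΦ3⟩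
  · intro h0
    apply hv0
    have j0 : emb F a v.1 = 0 := by rw [← i0, h0]; rfl
    have j1 : emb F b v.2.1 = 0 := by rw [← i1, h0]; rfl
    have j2 : emb F c v.2.2 = 0 := by rw [← i2, h0]; rfl
    have k0 : v.1 = 0 := emb_inj a (by rw [j0, map_zero])
    have k1 : v.2.1 = 0 := emb_inj b (by rw [j1, map_zero])
    have k2 : v.2.2 = 0 := emb_inj c (by rw [j2, map_zero])
    exact Prod.ext k0 (Prod.ext k1 k2)
  · rw [i0]; exact emb_mem _ _
  · rw [i1]; exact emb_mem _ _
  · rw [i2]; exact emb_mem _ _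
  · exact AdjoinRoot.mk_eq_zero.1 hΦ0
  · exact AdjoinRoot.mk_eq_zero.1 hΦ1
  · exact AdjoinRoot.mk_eq_zero.1 hΦ2

theorem form_dvd {A B C lA lB lC : F[X]} (hAB : IsCoprime A B) (hAC : IsCoprime A C)
    (hBC : IsCoprime B C) (h1 : C ∣ A * lC ^ 2 + B) (h2 : A ∣ B * lA ^ 2 + C)
    (h3 : B ∣ C * lB ^ 2 + A) {w w' : Fin 3 → F[X]} (hw : Lat A B C lA lB lC w)
    (hw' : Lat A B C lA lB lC w') : A * B * C ∣ form A B C w w' := by
  obtain ⟨a1, a2, a3⟩ := hw
  obtain ⟨b1, b2, b3⟩ := hw'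
  unfold form
  refine (hAC.mul_left hBC).mul_dvd (hAB.mul_dvd ?_ ?_) ?_
  · have e : A * w 0 * w' 0 + B * w 1 * w' 1 + C * w 2 * w' 2 =
        A * (w 0 * w' 0) + (w 1 - lA * w 2) * (B * w' 1) + (w' 1 - lA * w' 2) * (B * lA * w 2) +
          (B * lA ^ 2 + C) * (w 2 * w' 2) := by ring
    rw [e]
    exact (((dvd_mul_right _ _).add (a2.mul_right _)).add (b2.mul_right _)).add (h2.mul_right _)
  · have e : A * w 0 * w' 0 + B * w 1 * w' 1 + C * w 2 * w' 2 =
        B * (w 1 * w' 1) + (w 2 - lB * w 0) * (C * w' 2) + (w' 2 - lB * w' 0) * (C * lB * w 0) +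
          (C * lB ^ 2 + A) * (w 0 * w' 0) := by ring
    rw [e]
    exact (((dvd_mul_right _ _).add (a3.mul_right _)).add (b3.mul_right _)).add (h3.mul_right _)
  · have e : A * w 0 * w' 0 + B * w 1 * w' 1 + C * w 2 * w' 2 =
        C * (w 2 * w' 2) + (w 0 - lC * w 1) * (A * w' 0) + (w' 0 - lC * w' 1) * (A * lC * w 1) +
          (A * lC ^ 2 + B) * (w 1 * w' 1) := by ring
    rw [e]
    exact (((dvd_mul_right _ _).add (a1.mul_right _)).add (b1.mul_right _)).add (h1.mul_right _)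

theorem degree_term {A x x' : F[X]} {a M : ℕ} (hx : x ∈ degreeLT F a) (hx' : x' ∈ degreeLT F a)
    (h : A.natDegree + 2 * a ≤ M + 1) : (A * x * x').degree < (M : WithBot ℕ) := by
  by_cases h0 : A * x * x' = 0
  · rw [h0, degree_zero]
    exact WithBot.bot_lt_coe M
  · have hAx : A * x ≠ 0 := left_ne_zero_of_mul h0
    have hx0' : x' ≠ 0 := right_ne_zero_of_mul h0
    have hA : A ≠ 0 := left_ne_zero_of_mul hAx
    have hx0 : x ≠ 0 := right_ne_zero_of_mul hAx
    have d1 : x.natDegree < a := (natDegree_lt_iff_degree_lt hx0).2 (mem_degreeLT.1 hx)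
    have d2 : x'.natDegree < a := (natDegree_lt_iff_degree_lt hx0').2 (mem_degreeLT.1 hx')
    rw [← natDegree_lt_iff_degree_lt h0, natDegree_mul hAx hx0', natDegree_mul hA hx0]
    omega

theorem degree_form {A B C : F[X]} {a b c M : ℕ} {w w' : Fin 3 → F[X]} (hw : Small a b c w)
    (hw' : Small a b c w') (ha : A.natDegree + 2 * a ≤ M + 1) (hb : B.natDegree + 2 * b ≤ M + 1)
    (hc : C.natDegree + 2 * c ≤ M + 1) : (form A B C w w').degree < (M : WithBot ℕ) := by
  unfold form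
  refine (degree_add_le _ _).trans_lt (max_lt ((degree_add_le _ _).trans_lt (max_lt ?_ ?_)) ?_)
  · exact degree_term hw.1 hw'.1 ha
  · exact degree_term hw.2.1 hw'.2.1 hb
  · exact degree_term hw.2.2 hw'.2.2 hc

theorem lattice1 : Lattice1.{u} := by
  intro F _ A B C lA lB lC hA hB hC hAB hAC hBC h1 h2 h3 hpar
  obtain ⟨w, hw0, hws, hwl, -⟩ := exists_triple lA lB lC hA hB hC
    ((B.natDegree + C.natDegree + 1) / 2) ((A.natDegree + C.natDegree + 1) / 2)
    ((A.natDegree + B.natDegree + 1) / 2) 0 (by omega) 0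
  refine ⟨w 0, w 1, w 2, ?_, ?_⟩
  · rintro ⟨e0, e1, e2⟩
    apply hw0
    funext i
    fin_cases i
    · exact e0
    · exact e1
    · exact e2
  · have hdvd := form_dvd hAB hAC hBC h1 h2 h3 hwl hwl
    have hdeg := degree_form (A := A) (B := B) (C := C)
      (M := A.natDegree + B.natDegree + C.natDegree) hws hws (by omega) (by omega) (by omega)
    have hABC : (A * B * C).degree = ((A.natDegree + B.natDegree + C.natDegree : ℕ) : WithBot ℕ) := by
      rw [degree_eq_natDegree (mul_ne_zero (mul_ne_zero hA hB) hC),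
        natDegree_mul (mul_ne_zero hA hB) hC, natDegree_mul hA hB]
    have h0 : form A B C w w = 0 := eq_zero_of_dvd_of_degree_lt hdvd (by rw [hABC]; exact hdeg)
    rw [← h0]
    unfold form
    ring

/-- the coefficient of the form is a linear functional -/
noncomputable def functional (A B C : F[X]) (N : ℕ) (w : Fin 3 → F[X]) : (Fin 3 → F[X]) →ₗ[F] F :=
  lcoeff F N ∘ₗ (LinearMap.mulLeft F (A * w 0) ∘ₗ LinearMap.proj 0 +
    LinearMap.mulLeft F (B * w 1) ∘ₗ LinearMap.proj 1 +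
    LinearMap.mulLeft F (C * w 2) ∘ₗ LinearMap.proj 2)

theorem functional_apply (A B C : F[X]) (N : ℕ) (w w' : Fin 3 → F[X]) :
    functional A B C N w w' = (form A B C w w').coeff N := rfl

theorem lattice2 : Lattice2.{u} := by
  intro F _ _ A B C lA lB lC hA hB hC hAB hAC hBC h1 h2 h3 hp1 hp2
  by_cases hiso : ∃ x y z : F[X], ¬ (x = 0 ∧ y = 0 ∧ z = 0) ∧ A * x ^ 2 + B * y ^ 2 + C * z ^ 2 = 0
  · exact Or.inl hiso
  right
  have hABC0 : A * B * C ≠ 0 := mul_ne_zero (mul_ne_zero hA hB) hC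
  have hABC : (A * B * C).natDegree = A.natDegree + B.natDegree + C.natDegree := by
    rw [natDegree_mul (mul_ne_zero hA hB) hC, natDegree_mul hA hB]
  -- anisotropy
  have haniso : ∀ w : Fin 3 → F[X], form A B C w w = 0 → w = 0 := by
    intro w hw
    by_contra hne
    apply hiso
    refine ⟨w 0, w 1, w 2, ?_, ?_⟩
    · rintro ⟨e0, e1, e2⟩
      apply hne
      funext i
      fin_cases i
      · exact e0
      · exact e1
      · exact e2
    · rw [← hw]
      unfold form
      ring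
  set a := (B.natDegree + C.natDegree) / 2 + 1 with ha
  set b := (A.natDegree + C.natDegree) / 2 + 1 with hb
  set c := (A.natDegree + B.natDegree) / 2 + 1 with hc
  set N := A.natDegree + B.natDegree + C.natDegree with hN
  -- the values of the form on the lattice
  have hval : ∀ w w' : Fin 3 → F[X], Small a b c w → Small a b c w' → Lat A B C lA lB lC w →
      Lat A B C lA lB lC w' → ∃ t : F, form A B C w w' = A * B * C * Polynomial.C t := by
    intro w w' s1 s2 l1 l2
    obtain ⟨R, hR⟩ := form_dvd hAB hAC hBC h1 h2 h3 l1 l2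
    have hdeg := degree_form (A := A) (B := B) (C := C) (M := N + 1) s1 s2 (by omega) (by omega)
      (by omega)
    by_cases hR0 : R = 0
    · exact ⟨0, by rw [hR, hR0, map_zero]⟩
    · have h5 : (A * B * C * R).natDegree < N + 1 := by
        rw [natDegree_lt_iff_degree_lt (mul_ne_zero hABC0 hR0), ← hR]
        exact hdeg
      rw [natDegree_mul hABC0 hR0, hABC] at h5
      have h6 : R.natDegree = 0 := by omega
      obtain ⟨t, ht⟩ := natDegree_eq_zero.1 h6
      exact ⟨t, by rw [hR, ht]⟩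
  have hzero : ∀ w w' : Fin 3 → F[X], Small a b c w → Small a b c w' → Lat A B C lA lB lC w →
      Lat A B C lA lB lC w' → functional A B C N w w' = 0 → form A B C w w' = 0 := by
    intro w w' s1 s2 l1 l2 h0
    obtain ⟨t, ht⟩ := hval w w' s1 s2 l1 l2
    rw [functional_apply, ht, mul_comm, coeff_C_mul] at h0
    have h7 : (A * B * C).coeff N ≠ 0 := by
      rw [← hABC]
      exact leadingCoeff_ne_zero.2 hABC0
    rcases mul_eq_zero.1 h0 with h8 | h8
    · rw [ht, h8, map_zero, mul_zero]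
    · exact absurd h8 h7
  -- the orthogonal basis
  obtain ⟨w0, w0n, w0s, w0l, -⟩ := exists_triple lA lB lC hA hB hC a b c 0 (by omega) 0
  obtain ⟨w1, w1n, w1s, w1l, w1z⟩ := exists_triple lA lB lC hA hB hC a b c 1 (by omega)
    (LinearMap.pi fun _ => functional A B C N w0)
  obtain ⟨w2, w2n, w2s, w2l, w2z⟩ := exists_triple lA lB lC hA hB hC a b c 2 (by omega)
    (LinearMap.pi ![functional A B C N w0, functional A B C N w1])
  have f01 : form A B C w0 w1 = 0 := hzero w0 w1 w0s w1s w0l w1l (congrFun w1z 0)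
  have f02 : form A B C w0 w2 = 0 := hzero w0 w2 w0s w2s w0l w2l (congrFun w2z 0)
  have f12 : form A B C w1 w2 = 0 := hzero w1 w2 w1s w2s w1l w2l (congrFun w2z 1)
  obtain ⟨t0, ht0⟩ := hval w0 w0 w0s w0s w0l w0l
  obtain ⟨t1, ht1⟩ := hval w1 w1 w1s w1s w1l w1l
  obtain ⟨t2, ht2⟩ := hval w2 w2 w2s w2s w2l w2l
  have t0n : t0 ≠ 0 := by
    intro h0
    rw [h0, map_zero, mul_zero] at ht0
    exact w0n (haniso w0 ht0)
  have t1n : t1 ≠ 0 := by
    intro h0
    rw [h0, map_zero, mul_zero] at ht1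
    exact w1n (haniso w1 ht1)
  have t2n : t2 ≠ 0 := by
    intro h0
    rw [h0, map_zero, mul_zero] at ht2
    exact w2n (haniso w2 ht2)
  have f10 : form A B C w1 w0 = 0 := by rw [form_symm]; exact f01
  have f20 : form A B C w2 w0 = 0 := by rw [form_symm]; exact f02
  have f21 : form A B C w2 w1 = 0 := by rw [form_symm]; exact f12
  unfold form at ht0 ht1 ht2 f01 f02 f12 f10 f20 f21
  refine ⟨![w0, w1, w2], ![t0, t1, t2], ?_, ?_, ?_⟩
  · intro i
    fin_cases i
    · exact t0n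
    · exact t1n
    · exact t2n
  · intro i j
    fin_cases i <;> fin_cases j
    · exact ht0
    · exact f01
    · exact f02
    · exact f10
    · exact ht1
    · exact f12
    · exact f20
    · exact f21
    · exact ht2
  · intro x hx hdg
    apply hx
    have hdg' : Polynomial.C t0 * Polynomial.C (x 0) ^ 2 + Polynomial.C t1 * Polynomial.C (x 1) ^ 2 +
        Polynomial.C t2 * Polynomial.C (x 2) ^ 2 = 0 := by
      have h9 : t0 * x 0 ^ 2 + t1 * x 1 ^ 2 + t2 * x 2 ^ 2 = 0 := hdg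
      have h10 := congrArg (Polynomial.C : F → F[X]) h9
      simpa only [map_add, map_mul, map_pow, map_zero] using h10
    have hu : (fun k => Polynomial.C (x 0) * w0 k + Polynomial.C (x 1) * w1 k +
        Polynomial.C (x 2) * w2 k : Fin 3 → F[X]) = 0 := by
      apply haniso
      unfold form
      linear_combination Polynomial.C (x 0) ^ 2 * ht0 + Polynomial.C (x 1) ^ 2 * ht1 +
        Polynomial.C (x 2) ^ 2 * ht2 + 2 * Polynomial.C (x 0) * Polynomial.C (x 1) * f01 +
        2 * Polynomial.C (x 0) * Polynomial.C (x 2) * f02 +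
        2 * Polynomial.C (x 1) * Polynomial.C (x 2) * f12 + A * B * C * hdg'
    have hu0 := congrFun hu 0
    have hu1 := congrFun hu 1
    have hu2 := congrFun hu 2
    simp only [Pi.zero_apply] at hu0 hu1 hu2
    have k0 : A * B * C * Polynomial.C (t0 * x 0) = 0 := by
      rw [map_mul]
      linear_combination (A * w0 0) * hu0 + (B * w0 1) * hu1 + (C * w0 2) * hu2 -
        Polynomial.C (x 0) * ht0 - Polynomial.C (x 1) * f01 - Polynomial.C (x 2) * f02
    have k1 : A * B * C * Polynomial.C (t1 * x 1) = 0 := by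
      rw [map_mul]
      linear_combination (A * w1 0) * hu0 + (B * w1 1) * hu1 + (C * w1 2) * hu2 -
        Polynomial.C (x 0) * f10 - Polynomial.C (x 1) * ht1 - Polynomial.C (x 2) * f12
    have k2 : A * B * C * Polynomial.C (t2 * x 2) = 0 := by
      rw [map_mul]
      linear_combination (A * w2 0) * hu0 + (B * w2 1) * hu1 + (C * w2 2) * hu2 -
        Polynomial.C (x 0) * f20 - Polynomial.C (x 1) * f21 - Polynomial.C (x 2) * ht2
    have m0 : x 0 = 0 := by
      have := (mul_eq_zero.1 k0).resolve_left hABC0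
      rw [C_eq_zero] at this
      exact (mul_eq_zero.1 this).resolve_left t0n
    have m1 : x 1 = 0 := by
      have := (mul_eq_zero.1 k1).resolve_left hABC0
      rw [C_eq_zero] at this
      exact (mul_eq_zero.1 this).resolve_left t1n
    have m2 : x 2 = 0 := by
      have := (mul_eq_zero.1 k2).resolve_left hABC0
      rw [C_eq_zero] at this
      exact (mul_eq_zero.1 this).resolve_left t2n
    funext i
    fin_cases i
    · exact m0
    · exact m1
    · exact m2

end Pool.Agent.Helper68.RZ
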